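import Mathlib

namespace Pool.Agent.Results.MP_66e6f4_an.Cex
open Real

abbrev E3 := EuclideanSpace ℝ (Fin 3)

noncomputable def P (i : Fin 3) : E3 →L[ℝ] ℝ := EuclideanSpace.proj i

noncomputable def u0 (x : E3) : ℝ := exp (x 0) * cos (x 1) - 1

theorem hP (i : Fin 3) (x : E3) : HasFDerivAt (fun y : E3 => y i) (P i) x := (P i).hasFDerivAt

theorem hc (x : E3) : HasFDerivAt (fun y : E3 => exp (y 0) * cos (y 1))
    ((exp (x 0) * cos (x 1)) • P 0 - (exp (x 0) * sin (x 1)) • P 1) x := by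
  refine (((hP 0 x).exp).mul ((hP 1 x).cos)).congr_fderiv ?_
  ext v; simp; ring

theorem hs (x : E3) : HasFDerivAt (fun y : E3 => exp (y 0) * sin (y 1))
    ((exp (x 0) * sin (x 1)) • P 0 + (exp (x 0) * cos (x 1)) • P 1) x := by
  refine (((hP 0 x).exp).mul ((hP 1 x).sin)).congr_fderiv ?_
  ext v; simp; ring

theorem fd : fderiv ℝ u0 = fun x => (exp (x 0) * cos (x 1)) • P 0 - (exp (x 0) * sin (x 1)) • P 1 :=
  funext fun x => ((hc x).sub_const 1).fderiv

theorem lap (x : E3) : Laplacian.laplacian u0 x = 0 := by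
  rw [InnerProductSpace.laplacian_eq_iteratedFDeriv_orthonormalBasis u0 (EuclideanSpace.basisFun (Fin 3) ℝ)]
  simp only [iteratedFDeriv_two_apply, fd]
  rw [(((hc x).smul_const (P 0)).fun_sub ((hs x).smul_const (P 1))).fderiv]
  simp [Fin.sum_univ_three, P]

theorem result : ∃ f : ℝ → ℝ, ContDiff ℝ (⊤ : ℕ∞) f ∧ HasCompactSupport f ∧ (∀ t, 0 ≤ f t) ∧
    ∃ u : EuclideanSpace ℝ (Fin 3) → ℝ, ContDiff ℝ (⊤ : ℕ∞) u ∧
      (∀ x, Laplacian.laplacian u x = f (u x)) ∧ (∀ x, gradient u x ≠ 0) ∧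
      (∀ x, 0 < u x → 0 < x 0) ∧ (∃ x, 0 < u x) ∧
      ¬ ∃ (e : EuclideanSpace ℝ (Fin 3)) (c : ℝ) (V : ℝ → ℝ), ∀ x, u x = V (inner ℝ e x + c) := by
  refine ⟨fun _ => 0, contDiff_const, HasCompactSupport.zero, fun _ => le_rfl, u0, ?_, lap, ?_, ?_, ?_, ?_⟩
  · unfold u0; fun_prop
  · intro x h
    have h1 : fderiv ℝ u0 x = 0 := by simpa [gradient] using h
    rw [fd] at h1
    have a := congrArg (fun L : E3 →L[ℝ] ℝ => L (EuclideanSpace.single 0 1)) h1
    have b := congrArg (fun L : E3 →L[ℝ] ℝ => L (EuclideanSpace.single 1 1)) h1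
    simp [P] at a b
    have := sin_sq_add_cos_sq (x 1)
    rw [a, b] at this; norm_num at this
  · intro x h
    by_contra hx
    have h1 : exp (x 0) ≤ 1 := exp_le_one_iff.2 (not_lt.1 hx)
    have h2 := cos_le_one (x 1)
    have h3 := exp_pos (x 0)
    unfold u0 at h; nlinarith
  · refine ⟨EuclideanSpace.single 0 1, ?_⟩
    simp [u0]
  · rintro ⟨e, c, V, h⟩
    have inn : ∀ a b : ℝ, inner ℝ e (!₂[a, b, 0] : E3) = a * e 0 + b * e 1 := by
      intro a b; simp [PiLp.inner_apply, Fin.sum_univ_three]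
    have key : ∀ a b a' b' : ℝ, a * e 0 + b * e 1 = a' * e 0 + b' * e 1 →
        exp a * cos b = exp a' * cos b' := by
      intro a b a' b' hab
      have h1 := h !₂[a, b, 0]
      have h2 := h !₂[a', b', 0]
      rw [inn] at h1 h2
      rw [hab, ← h2] at h1
      simpa [u0] using h1
    by_cases h0 : e 0 = 0
    · have := key 0 0 1 0 (by simp [h0])
      simp only [exp_zero, cos_zero, mul_one] at this
      have h1 := one_lt_exp_iff.2 (one_pos (α := ℝ))
      linarith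
    · have := key 0 0 (-(π * e 1 / e 0)) π (by field_simp; ring)
      have h3 := exp_pos (-(π * e 1 / e 0))
      simp only [exp_zero, cos_zero, cos_pi] at this
      linarith

end Pool.Agent.Results.MP_66e6f4_an.Cex
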